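import Pool.Agent.Helper98.EQ.Goals
import Mathlib

/-!
# Project EQ (MP_5b9a11_al), packet TRU: the trace of `x ↦ u(i x)`
-/

set_option autoImplicit false
set_option linter.unusedSectionVars false

namespace Pool.Agent.Helper39.EQ.TRU

open MonoidAlgebra Pool.Agent.Helper98.EQ
open Pool.Agent.Helper47.EP (Dat Chr Hs Om ee ev pHB)

variable {p : ℕ} {T : Dat p} {A : Type} [Fintype A] [DecidableEq A] {R : Type} [CommRing R]
  {D : Type} [Group D] (M : SA T A D) {C : Chr T R} (I : Imp M C)

/-- the action of `d` on the group algebra -/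
noncomputable def sm (R : Type) [CommRing R] (d : D) :
    MonoidAlgebra R (Hs T A) ≃+* MonoidAlgebra R (Hs T A) :=
  mapDomainRingEquiv R (M.s d : Hs T A ≃* Hs T A)

theorem sm_single (d : D) (g : Hs T A) (c : R) : sm M R d (single g c) =
    single (M.s d g) c := mapDomainRingEquiv_single _ _ _

theorem sm_coeff (d : D) (x : MonoidAlgebra R (Hs T A)) (g : Hs T A) :
    (sm M R d x).coeff (M.s d g) = x.coeff g := by
  unfold sm
  rw [coeff_mapDomainRingEquiv, Finsupp.equivMapDomain_apply]
  congr 1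
  exact (M.s d : Hs T A ≃* Hs T A).symm_apply_apply g

theorem single_smul {G : Type} (g : G) (c : R) : single g c = c • single g (1 : R) := by
  rw [smul_single, smul_eq_mul, mul_one]

theorem ev_zero : ev C (0 : A → T.K) = ee C A := by
  unfold Pool.Agent.Helper47.EP.ev
  show single (1 : Hs T A) (1 : R) * ee C A = ee C A
  rw [← one_def, one_mul]

theorem sa_zero (d : D) : M.m d 0 = 0 := by
  have h := M.add d 0 0
  rw [add_zero] at h
  exact left_eq_add.1 h

theorem sa_eq_zero (d : D) (v : A → T.K) : M.m d v = 0 ↔ v = 0 := by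
  constructor
  · intro h
    rw [← M.inv_left d v, h, sa_zero]
  · intro h
    rw [h, sa_zero]

theorem sm_ee [Fact p.Prime] (d : D) : sm M R d (ee C A) = ee C A := by
  obtain ⟨-, -, -, -, b5, -⟩ := pHB p T A R C
  ext g
  obtain ⟨g, rfl⟩ := (M.s d : Hs T A ≃* Hs T A).surjective g
  show (sm M R d (ee C A)).coeff (M.s d g) = (ee C A).coeff (M.s d g)
  rw [sm_coeff, ← ev_zero, b5, b5]
  show _ = if M.m d g.v = 0 then C.il * C.ψ (-g.z) else 0
  by_cases hv : g.v = 0
  · rw [if_pos hv, if_pos ((sa_eq_zero M d g.v).2 hv)]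
  · rw [if_neg hv, if_neg fun h => hv ((sa_eq_zero M d g.v).1 h)]

theorem r_mul (d : D) (z : MonoidAlgebra R (Hs T A)) : I.r d * z = sm M R d z * I.r d := by
  induction z using MonoidAlgebra.induction_linear with
  | zero => rw [map_zero, mul_zero, zero_mul]
  | add x x' h h' => rw [mul_add, h, h', map_add, add_mul]
  | single g c =>
    rw [sm_single, single_smul, mul_smul_comm, ← I.conj, single_smul (M.s d g) c, smul_mul_assoc]

theorem r_conj [Fact p.Prime] (d : D) (z : MonoidAlgebra R (Hs T A)) (hz : ee C A * z = z) :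
    I.r d * z * I.r d⁻¹ = sm M R d z := by
  obtain ⟨-, b2, -⟩ := pHB p T A R C
  rw [r_mul, mul_assoc, ← I.mul, mul_inv_cancel, I.one]
  conv_lhs => rw [← sm_ee M (R := R) (C := C) d, ← map_mul, ← b2, hz]

theorem t (hTRE : S_TRE) : S_TRU := by
  intro p _ T A _ _ D _ M R _ C I i hi u
  have h1 := hTRE p T A R C (I.r u * i) (I.r u⁻¹) (by rw [← mul_assoc, I.er]) (I.er _)
  rw [← h1]
  refine Eq.trans ?_ (Equiv.sum_comp (M.s u : Hs T A ≃* Hs T A).toEquiv fun h =>
    (I.r u * i * single h 1 * I.r u⁻¹).coeff h)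
  refine Finset.sum_congr rfl fun g _ => ?_
  show i.coeff (g * (M.s u g)⁻¹) = (I.r u * i * single (M.s u g) 1 * I.r u⁻¹).coeff (M.s u g)
  rw [mul_assoc (I.r u), r_conj M I u _ (by rw [← mul_assoc, hi]), sm_coeff,
    coeff_mul_single_apply, mul_one]

end Pool.Agent.Helper39.EQ.TRU
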